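import Pool.Agent.helper70.RK.Spec

/-!
# RK (MP_e82547_al): row ST2
-/

set_option autoImplicit false

namespace RK

open QS (Lef EAb)
open LEQ (Stb Nz XS Ls Mb FS mem_FS)

theorem ST2_stb {G : Type} [Group G] {u : G} {E : Subgroup G} (h : Com E u) : Stb u E := by
  intro x
  constructor
  · intro hx
    have e : u * x * u⁻¹ = x := by rw [← h x hx]; group
    rw [e]; exact hx
  · intro hx
    have h1 := h _ hx
    have e : u * x * u⁻¹ = x := by
      have h2 : u * (x * u⁻¹ * u) = u * (u * x * u⁻¹) := by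
        calc u * (x * u⁻¹ * u) = (u * x * u⁻¹) * u := by group
          _ = u * (u * x * u⁻¹) := h1
      have h3 := mul_left_cancel h2
      rw [← h3]; group
    rw [← e]; exact hx

theorem ST2_stb1 {G : Type} [Group G] (E : Subgroup G) : Stb 1 E := by
  intro x
  rw [one_mul, inv_one, mul_one]

theorem ST2_le {G : Type} [Group G] {u : G} {E : Subgroup G} :
    E ≤ Subgroup.centralizer {u} ↔ Com E u := by
  constructor
  · intro h y hy
    have := (Subgroup.mem_centralizer_iff.mp (h hy)) u rfl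
    exact this.symm
  · intro h y hy
    rw [Subgroup.mem_centralizer_iff]
    intro v hv
    rw [Set.mem_singleton_iff] at hv
    subst hv
    exact (h y hy).symm

theorem ST2_Mb {G : Type} [Group G] [Finite G] {u : G} {E : Subgroup G} (h : Com E u) :
    Mb u E = Mb 1 E := by
  classical
  unfold Mb
  by_cases hE : E = ⊥
  · rw [if_pos hE, if_pos hE]
  · rw [if_neg hE, if_neg hE]
    congr 1
    funext F
    apply propext
    constructor
    · rintro ⟨h1, h2, _⟩
      exact ⟨h1, h2, ST2_stb1 F⟩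
    · rintro ⟨h1, h2, _⟩
      exact ⟨h1, h2, ST2_stb fun y hy => h y (h2.le hy)⟩

theorem ST2 (hR2 : R2_stmt) (hFXP : FXP_stmt) (hLLM : LEQ.LM_stmt) (hLTR : LEQ.TR_stmt) :
    ST2_stmt := by
  intro G iG iF p hp hrk u X hX h1 h2 h3
  have hLef : Lef G p u = Lef (Subgroup.centralizer {u} : Subgroup G) p 1 := by
    rw [hLLM G p u, hLTR G p (Subgroup.centralizer {u}) 1]
    unfold Ls
    rw [OneMemClass.coe_one]
    congr 1
    have hset : FS (fun E : Subgroup G => E ≤ ⊤ ∧ EAb p E ∧ Stb u E) =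
        FS (fun E : Subgroup G => E ≤ Subgroup.centralizer {u} ∧ EAb p E ∧ Stb 1 E) := by
      ext E
      rw [mem_FS, mem_FS]
      constructor
      · rintro ⟨_, hE, hs⟩
        exact ⟨ST2_le.mpr (h1 E hE hs), hE, ST2_stb1 E⟩
      · rintro ⟨hC, hE, _⟩
        exact ⟨le_top, hE, ST2_stb (ST2_le.mp hC)⟩
    rw [hset]
    refine Finset.sum_congr rfl fun E hE => ?_
    rw [mem_FS] at hE
    exact ST2_Mb (ST2_le.mp hE.1)
  rw [hLef]
  refine hR2 _ p hp ?_ ?_
  · intro E hE
    obtain ⟨E', hE'⟩ : ∃ E' : Subgroup G, E' = E.map (Subgroup.centralizer {u}).subtype := ⟨_, rfl⟩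
    have hEab : EAb p E' := by
      rw [hE']
      constructor
      · rintro x ⟨x0, hx0, rfl⟩ y ⟨y0, hy0, rfl⟩
        rw [← map_mul, ← map_mul, hE.1 x0 hx0 y0 hy0]
      · rintro x ⟨x0, hx0, rfl⟩
        rw [← map_pow, hE.2 x0 hx0, map_one]
    have hCom : Com E' u := by
      rw [← ST2_le, hE']
      rintro x ⟨x0, _, rfl⟩
      exact x0.2
    obtain ⟨hNz, hbot⟩ := h2 E' hEab hCom
    have hpg : IsPGroup p E' := by
      intro x
      refine ⟨1, ?_⟩
      rw [pow_one]
      apply Subtype.ext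
      rw [Subgroup.coe_pow]
      exact hEab.2 x.1 x.2
    obtain ⟨x, hxX, hx1, hxp, hxc⟩ := hFXP G p hp E' X hpg hNz hX
    have hcomm : ∀ (m : E') (n : Subgroup.zpowers x),
        Commute (E'.subtype m) ((Subgroup.zpowers x).subtype n) := by
      rintro ⟨m, hm⟩ ⟨n, hn⟩
      obtain ⟨k, rfl⟩ := Subgroup.mem_zpowers_iff.mp hn
      have hc : Commute m x := hxc m hm
      exact hc.zpow_right k
    obtain ⟨f, hf⟩ : ∃ f : E' × Subgroup.zpowers x →* G,
      f = MonoidHom.noncommCoprod E'.subtype (Subgroup.zpowers x).subtype hcomm := ⟨_, rfl⟩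
    have hfv : ∀ (m : E') (n : Subgroup.zpowers x), f (m, n) = (m : G) * (n : G) := by
      intro m n
      rw [hf]
      rfl
    have hfi : Function.Injective f := by
      rw [injective_iff_map_eq_one]
      rintro ⟨m, n⟩ hmn
      rw [hfv] at hmn
      have hm : (m : G) = (n : G)⁻¹ := eq_inv_of_mul_eq_one_left hmn
      have hnX : (n : G) ∈ X := by
        have : Subgroup.zpowers x ≤ X := by
          rw [Subgroup.zpowers_le]; exact hxX
        exact this n.2
      have hmb : (m : G) ∈ E' ⊓ X := ⟨m.2, by rw [hm]; exact X.inv_mem hnX⟩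
      rw [hbot, Subgroup.mem_bot] at hmb
      have hnb : (n : G) = 1 := by
        rw [hmb, one_mul] at hmn
        exact hmn
      exact Prod.ext (Subtype.ext hmb) (Subtype.ext hnb)
    have hzord : orderOf x = p := by
      haveI := Fact.mk hp
      exact orderOf_eq_prime hxp hx1
    have hF : EAb p f.range := by
      constructor
      · rintro a ⟨⟨m, n⟩, rfl⟩ b ⟨⟨m', n'⟩, rfl⟩
        rw [← map_mul, ← map_mul]
        congr 1
        refine Prod.ext (Subtype.ext (hEab.1 m.1 m.2 m'.1 m'.2)) ?_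
        obtain ⟨k, hk⟩ := Subgroup.mem_zpowers_iff.mp n.2
        obtain ⟨l, hl⟩ := Subgroup.mem_zpowers_iff.mp n'.2
        refine Subtype.ext ?_
        show (n : G) * (n' : G) = (n' : G) * (n : G)
        rw [← hk, ← hl, ← zpow_add, ← zpow_add, add_comm]
      · rintro a ⟨⟨m, n⟩, rfl⟩
        rw [← map_pow]
        have : (m, n) ^ p = 1 := by
          refine Prod.ext (Subtype.ext ?_) (Subtype.ext ?_)
          · show ((m ^ p : E') : G) = 1
            rw [Subgroup.coe_pow]; exact hEab.2 m.1 m.2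
          · show ((n ^ p : Subgroup.zpowers x) : G) = 1
            rw [Subgroup.coe_pow]
            obtain ⟨k, hk⟩ := Subgroup.mem_zpowers_iff.mp n.2
            rw [← hk, ← zpow_natCast, ← zpow_mul, mul_comm, zpow_mul, zpow_natCast, hxp, one_zpow]
        rw [this, map_one]
    have hc1 := hrk f.range hF
    have hc2 : Nat.card f.range = Nat.card E' * p := by
      rw [← Nat.card_congr (MonoidHom.ofInjective hfi).toEquiv, Nat.card_prod, Nat.card_zpowers, hzord]
    rw [hc2] at hc1
    have hc3 : Nat.card E = Nat.card E' := by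
      rw [hE']
      exact Nat.card_congr (E.equivMapOfInjective _ (Subgroup.subtype_injective _)).toEquiv
    rw [hc3]
    have hpp : 0 < p := hp.pos
    have : Nat.card E' * p ≤ p ^ 2 * p := by
      calc Nat.card E' * p ≤ p ^ 3 := hc1
        _ = p ^ 2 * p := by ring
    exact Nat.le_of_mul_le_mul_right this hpp
  · intro P hP hPp
    have h4 := h3 (P.map (Subgroup.centralizer {u}).subtype) ?_ ?_ ?_
    · rw [Subgroup.map_eq_bot_iff_of_injective _ (Subgroup.subtype_injective _)] at h4
      exact h4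
    · rintro x ⟨x0, _, rfl⟩
      exact x0.2
    · rintro h hh x ⟨x0, hx0, rfl⟩
      exact ⟨⟨h, hh⟩ * x0 * ⟨h, hh⟩⁻¹, hP.conj_mem x0 hx0 ⟨h, hh⟩, rfl⟩
    · exact hPp.map _

end RK
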